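import Mathlib

/-!
# The core of the fixed point argument
-/

set_option autoImplicit false

open Filter Topology Set

namespace Pool.Agent.K7.H82

section Minimal

variable {K : Type*} [TopologicalSpace K] [CompactSpace K]

/-- Existence of minimal nonempty closed sets with an intersection-stable property. -/
theorem exists_minimal (P : Set K → Prop)
    (hP : ∀ c : Set (Set K), c.Nonempty → (∀ A ∈ c, P A) → P (⋂₀ c))
    (A : Set K) (hA : IsClosed A) (hne : A.Nonempty) (hPA : P A) :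
    ∃ B ⊆ A, IsClosed B ∧ B.Nonempty ∧ P B ∧
      ∀ B' ⊆ B, IsClosed B' → B'.Nonempty → P B' → B' = B := by
  obtain ⟨B, hBA, hB⟩ := zorn_superset_nonempty {B : Set K | IsClosed B ∧ B.Nonempty ∧ P B} (by
    intro c hc hchain hcne
    refine ⟨⋂₀ c, ⟨isClosed_sInter fun B hB => (hc hB).1, ?_, hP c hcne fun B hB => (hc hB).2.2⟩,
      fun s hs => sInter_subset_of_mem hs⟩
    have : Nonempty c := hcne.to_subtype
    refine IsCompact.nonempty_sInter_of_directed_nonempty_isCompact_isClosed ?_ ?_ ?_ ?_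
    · intro a ha b hb
      rcases hchain.total ha hb with h | h
      · exact ⟨a, ha, Subset.rfl, h⟩
      · exact ⟨b, hb, h, Subset.rfl⟩
    · exact fun U hU => (hc hU).2.1
    · exact fun U hU => (hc hU).1.isCompact
    · exact fun U hU => (hc hU).1) A ⟨hA, hne, hPA⟩
  refine ⟨B, hBA, hB.1.1, hB.1.2.1, hB.1.2.2, ?_⟩
  intro B' hB' h1 h2 h3
  exact Subset.antisymm hB' (hB.2 ⟨h1, h2, h3⟩ hB')

end Minimal

section Mean

variable {K S : Type*} [TopologicalSpace K] [CompactSpace K] [T2Space K]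

/-- Invariance of a set under a family of maps. -/
def Inv (T : S → K → K) (A : Set K) : Prop := ∀ s, ∀ x ∈ A, T s x ∈ A

/-- An invariant mean on `C(K)` carried by an orbit. -/
structure IsMean (T : S → K → K) (y₀ : K) (Λ : C(K, ℝ) →ₗ[ℝ] ℝ) : Prop where
  pos : ∀ h : C(K, ℝ), (∀ x, 0 ≤ h x) → 0 ≤ Λ h
  one : Λ 1 = 1
  inv : ∀ s, ∀ g h : C(K, ℝ), (∀ x, g x = h (T s x)) → Λ g = Λ h
  orb : ∀ h : C(K, ℝ), (∀ t, h (T t y₀) = 0) → Λ h = 0

variable {T : S → K → K} {y₀ : K} {Λ : C(K, ℝ) →ₗ[ℝ] ℝ}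

omit [CompactSpace K] [T2Space K] in
theorem IsMean.mono_on (hΛ : IsMean T y₀ Λ) {F : Set K} (hF : Inv T F) (hy : y₀ ∈ F)
    (g h : C(K, ℝ)) (hgh : ∀ x ∈ F, g x ≤ h x) : Λ g ≤ Λ h := by
  let d : C(K, ℝ) := h - g
  let d₁ : C(K, ℝ) := ⟨fun x => max (d x) 0, by fun_prop⟩
  let d₂ : C(K, ℝ) := ⟨fun x => max (-(d x)) 0, by fun_prop⟩
  have hd : d = d₁ - d₂ := by
    ext x
    change d x = max (d x) 0 - max (-(d x)) 0
    rcases le_total 0 (d x) with h0 | h0
    · rw [max_eq_left h0, max_eq_right (by linarith), sub_zero]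
    · rw [max_eq_right h0, max_eq_left (by linarith)]
      ring
  have h1 : 0 ≤ Λ d₁ := hΛ.pos _ fun x => le_max_right _ _
  have h2 : Λ d₂ = 0 := by
    refine hΛ.orb _ fun t => ?_
    have hx := hgh _ (hF t _ hy)
    change max (-(h (T t y₀) - g (T t y₀))) 0 = 0
    exact max_eq_right (by linarith)
  have h3 : Λ h - Λ g = Λ d₁ - Λ d₂ := by
    rw [← map_sub, ← map_sub, ← hd]
  linarith

/-- The support of the mean is the minimal set. -/
theorem IsMean.pos_of_pos (hΛ : IsMean T y₀ Λ) (hT : ∀ s, Continuous (T s)) {F : Set K}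
    (hFc : IsClosed F) (hF : Inv T F) (hy : y₀ ∈ F)
    (hmin : ∀ F' ⊆ F, IsClosed F' → F'.Nonempty → Inv T F' → F' = F)
    (x : K) (hx : x ∈ F) (h : C(K, ℝ)) (hh : ∀ x, 0 ≤ h x) (hhx : 0 < h x) : 0 < Λ h := by
  let G : Set K := {x | ∀ h : C(K, ℝ), (∀ x, 0 ≤ h x) → Λ h = 0 → h x = 0}
  have hGc : IsClosed G := by
    have : G = ⋂ h : C(K, ℝ), ⋂ (_ : ∀ x, 0 ≤ h x), ⋂ (_ : Λ h = 0), {x | h x = 0} := by
      ext x
      simp [G]
    rw [this]
    refine isClosed_iInter fun h => isClosed_iInter fun _ => isClosed_iInter fun _ => ?_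
    exact isClosed_eq h.continuous continuous_const
  have hGinv : Inv T G := by
    intro s x hx h h0 h1
    have := hx ⟨fun x => h (T s x), h.continuous.comp (hT s)⟩ (fun x => h0 _)
      ((hΛ.inv s _ h fun x => rfl).trans h1)
    exact this
  have hGne : G.Nonempty := by
    by_contra hcon
    rw [not_nonempty_iff_eq_empty] at hcon
    have hcov : ∀ x : K, ∃ h : C(K, ℝ), (∀ x, 0 ≤ h x) ∧ Λ h = 0 ∧ 0 < h x := by
      intro x
      have hxG : x ∉ G := by
        rw [hcon]
        exact notMem_empty x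
      simp only [G, mem_ofPred_eq, not_forall] at hxG
      obtain ⟨h, h0, h1, h2⟩ := hxG
      exact ⟨h, h0, h1, lt_of_le_of_ne (h0 x) (Ne.symm h2)⟩
    choose k hk0 hk1 hk2 using hcov
    obtain ⟨t, ht⟩ := isCompact_univ.elim_finite_subcover (fun x : K => {y | 0 < k x y})
      (fun x => isOpen_lt continuous_const (k x).continuous)
      (fun x _ => mem_iUnion.2 ⟨x, hk2 x⟩)
    let g : C(K, ℝ) := ∑ x ∈ t, k x
    have hg : ∀ y, 0 < g y := by
      intro y
      have hy := ht (mem_univ y)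
      simp only [mem_iUnion, exists_prop] at hy
      obtain ⟨x, hx, hxy⟩ := hy
      have : g y = ∑ x ∈ t, k x y := by
        simp [g]
      rw [this]
      exact Finset.sum_pos' (fun x _ => hk0 x y) ⟨x, hx, hxy⟩
    have hΛg : Λ g = 0 := by
      simp only [g, map_sum]
      exact Finset.sum_eq_zero fun x _ => hk1 x
    obtain ⟨y, -, hy⟩ := isCompact_univ.exists_isMinOn ⟨y₀, mem_univ _⟩ g.continuous.continuousOn
    have hle : ∀ z, 0 ≤ (g - (g y) • (1 : C(K, ℝ))) z := by
      intro z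
      have := hy (mem_univ z)
      simp only [ContinuousMap.sub_apply, ContinuousMap.smul_apply, ContinuousMap.one_apply,
        smul_eq_mul, mul_one, sub_nonneg]
      exact this
    have h1 := hΛ.pos _ hle
    rw [map_sub, map_smul, hΛ.one, hΛg, smul_eq_mul, mul_one] at h1
    linarith [hg y]
  have hGF : G ⊆ F := by
    intro x hxG
    by_contra hxF
    obtain ⟨f, hf0, hf1, hf⟩ := exists_continuous_zero_one_of_isClosed hFc (isClosed_singleton (x := x))
      (disjoint_singleton_right.2 hxF)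
    have h1 : Λ f = 0 := hΛ.orb f fun t => hf0 (hF t _ hy)
    have h2 := hxG f (fun z => (hf z).1) h1
    have h3 : f x = 1 := hf1 rfl
    rw [h2] at h3
    exact zero_ne_one h3
  have hGeq := hmin G hGF hGc hGne hGinv
  have hxG : x ∈ G := by
    rw [hGeq]
    exact hx
  refine lt_of_le_of_ne (hΛ.pos h hh) ?_
  intro h0
  have := hxG h hh h0.symm
  linarith

/-- Every map is onto the minimal set. -/
theorem IsMean.surj (hΛ : IsMean T y₀ Λ) (hT : ∀ s, Continuous (T s)) {F : Set K}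
    (hFc : IsClosed F) (hF : Inv T F) (hy : y₀ ∈ F)
    (hmin : ∀ F' ⊆ F, IsClosed F' → F'.Nonempty → Inv T F' → F' = F)
    (s : S) (x : K) (hx : x ∈ F) : ∃ z ∈ F, T s z = x := by
  by_contra hcon
  have hcl : IsClosed (T s '' F) := (hFc.isCompact.image (hT s)).isClosed
  have hxn : x ∉ T s '' F := by
    rintro ⟨z, hz, hzx⟩
    exact hcon ⟨z, hz, hzx⟩
  obtain ⟨f, hf0, hf1, hf⟩ := exists_continuous_zero_one_of_isClosed hcl (isClosed_singleton (x := x))
    (disjoint_singleton_right.2 hxn)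
  have h1 : Λ f = 0 := by
    rw [← hΛ.inv s ⟨fun x => f (T s x), f.continuous.comp (hT s)⟩ f fun x => rfl]
    refine hΛ.orb _ fun t => ?_
    exact hf0 ⟨_, hF t _ hy, rfl⟩
  have h2 : f x = 1 := hf1 rfl
  have h3 := hΛ.pos_of_pos hT hFc hF hy hmin x hx f (fun z => (hf z).1) (by rw [h2]; exact one_pos)
  linarith

/-- A finite family of pairwise disjoint closed sets, each carrying mass at least `δ`, has at most
`1 / δ` members. -/
theorem IsMean.card_mul_le (hΛ : IsMean T y₀ Λ) (n : ℕ) (W : ℕ → Set K) (δ : ℝ)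
    (hW : ∀ j, IsClosed (W j)) (hd : ∀ i j, i < j → Disjoint (W i) (W j))
    (hδ : ∀ j, ∀ k : C(K, ℝ), (∀ x, 0 ≤ k x) → (∀ x ∈ W j, k x = 1) → δ ≤ Λ k) :
    n * δ ≤ 1 := by
  classical
  have hex : ∀ j, ∃ f : C(K, ℝ), (∀ i, j < i → i < n → EqOn f 0 (W i)) ∧ EqOn f 1 (W j) ∧
      ∀ x, f x ∈ Icc (0 : ℝ) 1 := by
    intro j
    have hc : IsClosed (⋃ i ∈ Finset.Ioo j n, W i) := isClosed_biUnion_finset fun i _ => hW i
    have hdj : Disjoint (⋃ i ∈ Finset.Ioo j n, W i) (W j) := by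
      rw [disjoint_iUnion₂_left]
      intro i hi
      exact (hd j i (Finset.mem_Ioo.1 hi).1).symm
    obtain ⟨f, hf0, hf1, hf⟩ := exists_continuous_zero_one_of_isClosed hc (hW j) hdj
    refine ⟨f, ?_, hf1, hf⟩
    intro i hji hin x hx
    exact hf0 (mem_iUnion₂.2 ⟨i, Finset.mem_Ioo.2 ⟨hji, hin⟩, hx⟩)
  choose f hf0 hf1 hf using hex
  let q : ℕ → C(K, ℝ) := fun i => f i * ∏ j ∈ (Finset.range n).filter (· < i), (1 - f j)
  have hq : ∏ i ∈ Finset.range n, (1 - f i) = 1 - ∑ i ∈ Finset.range n, q i :=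
    Finset.prod_one_sub_ordered _ _
  have hprod : ∀ (s : Finset ℕ) (x : K), 0 ≤ (∏ j ∈ s, (1 - f j)) x := by
    intro s x
    rw [ContinuousMap.coe_prod, Finset.prod_apply]
    refine Finset.prod_nonneg fun j _ => ?_
    simp only [ContinuousMap.sub_apply, ContinuousMap.one_apply, sub_nonneg]
    exact (hf j x).2
  have h1 : Λ (∑ i ∈ Finset.range n, q i) ≤ 1 := by
    have h2 := hΛ.pos _ (hprod (Finset.range n))
    rw [hq, map_sub, hΛ.one] at h2
    linarith
  have h2 : ∀ i ∈ Finset.range n, δ ≤ Λ (q i) := by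
    intro i hi
    refine hδ i _ ?_ ?_
    · intro x
      exact mul_nonneg (hf i x).1 (hprod _ x)
    · intro x hx
      have ha : f i x = 1 := hf1 i hx
      have hb : (∏ j ∈ (Finset.range n).filter (· < i), (1 - f j)) x = 1 := by
        rw [ContinuousMap.coe_prod, Finset.prod_apply]
        refine Finset.prod_eq_one fun j hj => ?_
        have hj' := (Finset.mem_filter.1 hj).2
        have : f j x = 0 := hf0 j i hj' (Finset.mem_range.1 hi) hx
        simp [this]
      change f i x * (∏ j ∈ (Finset.range n).filter (· < i), (1 - f j)) x = 1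
      rw [ha, hb, one_mul]
  rw [map_sum] at h1
  have h3 : ∑ _i ∈ Finset.range n, δ ≤ ∑ i ∈ Finset.range n, Λ (q i) := Finset.sum_le_sum h2
  rw [Finset.sum_const, Finset.card_range, nsmul_eq_mul] at h3
  linarith

end Mean

section Main

variable {V : Type*} [AddCommGroup V] [Module ℝ V] [TopologicalSpace V] [T2Space V]
variable {ι S : Type*} [Mul S]

/-- Total boundedness of the minimal set for each seminorm. -/
theorem finite_net {C : Set V} (hC : IsCompact C) (p : Seminorm ℝ V)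
    (hball : ∀ (y : V) (r : ℝ), IsClosed {x : V | p (x - y) ≤ r})
    (hfrag : ∀ F : Set V, IsCompact F → F.Nonempty → ∀ ε : ℝ, 0 < ε →
      ∃ U : Set V, IsOpen U ∧ (U ∩ F).Nonempty ∧ ∀ x ∈ U ∩ F, ∀ y ∈ U ∩ F, p (x - y) ≤ ε)
    (T : S → C → C) (hmul : ∀ s t x, T (s * t) x = T s (T t x))
    (hT : ∀ s, Continuous (T s))
    (hne : ∀ s (x y : C), p ((T s x : V) - T s y) ≤ p ((x : V) - y))
    (hΛ : ∀ y₀ : C, ∃ Λ : C(C, ℝ) →ₗ[ℝ] ℝ, IsMean T y₀ Λ)
    (F : Set C) (hFc : IsClosed F) (hFne : F.Nonempty) (hF : Inv T F)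
    (hmin : ∀ F' ⊆ F, IsClosed F' → F'.Nonempty → Inv T F' → F' = F) (ε : ℝ) (hε : 0 < ε) :
    ∃ B : Finset C, (∀ b ∈ B, b ∈ F) ∧ ∀ x ∈ F, ∃ b ∈ B, p ((x : V) - b) ≤ ε := by
  have hK : CompactSpace C := isCompact_iff_compactSpace.1 hC
  -- a small open piece
  obtain ⟨U, hU, ⟨x₀', hx₀U, hx₀F⟩, hdiam⟩ := hfrag (Subtype.val '' F)
    (hFc.isCompact.image continuous_subtype_val) (hFne.image _) (ε / 2) (half_pos hε)
  obtain ⟨x₀, hx₀, rfl⟩ := hx₀F
  obtain ⟨Λ, hΛ⟩ := hΛ x₀
  -- a bump function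
  obtain ⟨h, h0, h1, h01⟩ := exists_continuous_zero_one_of_isClosed
    (s := {x : C | (x : V) ∉ U}) (t := {x₀})
    (by
      have : IsOpen {x : C | (x : V) ∈ U} := hU.preimage continuous_subtype_val
      exact this.isClosed_compl) (isClosed_singleton)
    (disjoint_singleton_right.2 (by
      intro hcon
      exact hcon hx₀U))
  set δ : ℝ := Λ h with hδ
  have hδpos : 0 < δ := by
    refine hΛ.pos_of_pos hT hFc hF hx₀ hmin x₀ hx₀ h (fun z => (h01 z).1) ?_
    have : h x₀ = 1 := h1 rfl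
    rw [this]
    exact one_pos
  -- the orbit closure
  have horb : closure (range fun s => T s x₀) = F := by
    have hS : Nonempty S := by
      by_contra hS
      rw [not_nonempty_iff] at hS
      have := hΛ.orb 1 (fun t => hS.elim t)
      rw [hΛ.one] at this
      exact one_ne_zero this
    refine hmin _ ?_ isClosed_closure ((range_nonempty _).closure) ?_
    · refine closure_minimal ?_ hFc
      rintro _ ⟨s, rfl⟩
      exact hF s _ hx₀
    · intro s x hx
      have : MapsTo (T s) (range fun s => T s x₀) (range fun s => T s x₀) := by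
        rintro _ ⟨t, rfl⟩
        exact ⟨s * t, hmul s t x₀⟩
      exact this.closure (hT s) hx
  -- finite net for the orbit
  have hnet : ∃ B : Finset C, (∀ b ∈ B, b ∈ range fun s => T s x₀) ∧
      ∀ s, ∃ b ∈ B, p ((T s x₀ : V) - b) ≤ ε := by
    by_contra hcon
    push Not at hcon
    obtain ⟨z, hz1, hz2⟩ := exists_seq_of_forall_finset_exists
      (fun x : C => x ∈ range fun s => T s x₀) (fun x y : C => ε < p ((y : V) - x)) (by
        intro B hB
        obtain ⟨s, hs⟩ := hcon B hB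
        exact ⟨T s x₀, ⟨s, rfl⟩, hs⟩)
    choose σ hσ using hz1
    obtain ⟨n, hn⟩ := exists_nat_gt (1 / δ)
    have hle := hΛ.card_mul_le n (fun j => {y : C | p ((y : V) - z j) ≤ ε / 2}) δ
      (fun j => (hball (z j) (ε / 2)).preimage continuous_subtype_val) (by
        intro i j hij
        rw [Set.disjoint_left]
        intro y hyi hyj
        have h3 : p ((y : V) - z i) ≤ ε / 2 := hyi
        have h4 : p ((y : V) - z j) ≤ ε / 2 := hyj
        have h5 := hz2 i j hij
        rw [map_sub_rev] at h4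
        have h6 : p ((z j : V) - z i) ≤ p ((z j : V) - y) + p ((y : V) - z i) := by
          have : (z j : V) - z i = ((z j : V) - y) + ((y : V) - z i) := by abel
          rw [this]
          exact map_add_le_add _ _ _
        linarith) (by
        intro j k hk0 hk1
        have h3 : Λ ⟨fun x => k (T (σ j) x), k.continuous.comp (hT (σ j))⟩ = Λ k :=
          hΛ.inv (σ j) _ k fun x => rfl
        rw [← h3, hδ]
        refine hΛ.mono_on hF hx₀ _ _ ?_
        intro x hx
        change h x ≤ k (T (σ j) x)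
        by_cases hxU : (x : V) ∈ U
        · have h4 : k (T (σ j) x) = 1 := by
            refine hk1 _ ?_
            change p ((T (σ j) x : V) - z j) ≤ ε / 2
            rw [← hσ j]
            refine (hne _ _ _).trans ?_
            exact hdiam _ ⟨hxU, x, hx, rfl⟩ _ ⟨hx₀U, x₀, hx₀, rfl⟩
          rw [h4]
          exact (h01 x).2
        · have h4 : h x = 0 := h0 hxU
          rw [h4]
          exact hk0 _)
    rw [div_lt_iff₀ hδpos] at hn
    linarith
  obtain ⟨B, hB1, hB2⟩ := hnet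
  refine ⟨B, ?_, ?_⟩
  · intro b hb
    obtain ⟨s, rfl⟩ := hB1 b hb
    exact hF s _ hx₀
  · intro x hx
    have hcl : IsClosed (⋃ b ∈ B, {y : C | p ((y : V) - b) ≤ ε}) :=
      isClosed_biUnion_finset fun b _ => (hball b ε).preimage continuous_subtype_val
    have hsub : closure (range fun s => T s x₀) ⊆ ⋃ b ∈ B, {y : C | p ((y : V) - b) ≤ ε} := by
      refine closure_minimal ?_ hcl
      rintro _ ⟨s, rfl⟩
      obtain ⟨b, hb, hb'⟩ := hB2 s
      exact mem_iUnion₂.2 ⟨b, hb, hb'⟩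
    rw [horb] at hsub
    obtain ⟨b, hb, hb'⟩ := mem_iUnion₂.1 (hsub hx)
    exact ⟨b, hb, hb'⟩

/-- The abstract fixed point theorem. -/
theorem core {C : Set V} (hC : IsCompact C) (hconv : Convex ℝ C) (hCne : C.Nonempty)
    (p : ι → Seminorm ℝ V)
    (hball : ∀ i (y : V) (r : ℝ), IsClosed {x : V | p i (x - y) ≤ r})
    (hfrag : ∀ i, ∀ F : Set V, IsCompact F → F.Nonempty → ∀ ε : ℝ, 0 < ε →
      ∃ U : Set V, IsOpen U ∧ (U ∩ F).Nonempty ∧ ∀ x ∈ U ∩ F, ∀ y ∈ U ∩ F, p i (x - y) ≤ ε)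
    (hsep : ∀ x, (∀ i, p i x = 0) → x = 0)
    (T : S → C → C) (hmul : ∀ s t x, T (s * t) x = T s (T t x))
    (hT : ∀ s, Continuous (T s))
    (hne : ∀ s i (x y : C), p i ((T s x : V) - T s y) ≤ p i ((x : V) - y))
    (hΛ : ∀ y₀ : C, ∃ Λ : C(C, ℝ) →ₗ[ℝ] ℝ, IsMean T y₀ Λ) :
    ∃ x : C, ∀ s, T s x = x := by
  classical
  have hK : CompactSpace C := isCompact_iff_compactSpace.1 hC
  have hCne' : Nonempty C := hCne.to_subtype
  -- the minimal convex set
  obtain ⟨A, -, hAc, hAne, ⟨hAinv, hAconv⟩, hAmin⟩ := exists_minimal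
    (fun A : Set C => Inv T A ∧ Convex ℝ (Subtype.val '' A)) (by
      intro c hc hP
      refine ⟨fun s x hx => mem_sInter.2 fun B hB => (hP B hB).1 s x (mem_sInter.1 hx B hB), ?_⟩
      have himg : Subtype.val '' ⋂₀ c = ⋂ A ∈ c, (Subtype.val '' A : Set V) := by
        ext v
        constructor
        · rintro ⟨x, hx, rfl⟩
          exact mem_iInter₂.2 fun A hA => ⟨x, mem_sInter.1 hx A hA, rfl⟩
        · intro hv
          obtain ⟨A₀, hA₀⟩ := hc
          obtain ⟨x, -, rfl⟩ := mem_iInter₂.1 hv A₀ hA₀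
          refine ⟨x, mem_sInter.2 fun A hA => ?_, rfl⟩
          obtain ⟨x', hx', hxx'⟩ := mem_iInter₂.1 hv A hA
          rwa [← Subtype.val_injective hxx']
      rw [himg]
      exact convex_iInter₂ fun A hA => (hP A hA).2) univ isClosed_univ univ_nonempty
    ⟨fun s x _ => mem_univ _, by rw [image_univ, Subtype.range_coe]; exact hconv⟩
  -- the minimal closed invariant subset
  obtain ⟨F, hFA, hFc, hFne, hFinv, hFmin⟩ := exists_minimal (fun A : Set C => Inv T A) (by
      intro c hc hP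
      exact fun s x hx => mem_sInter.2 fun B hB => (hP B hB) s x (mem_sInter.1 hx B hB)) A hAc hAne
    hAinv
  -- all distances in `F` vanish
  have hzero : ∀ i, ∀ x ∈ F, ∀ y ∈ F, p i ((x : V) - y) = 0 := by
    intro i
    by_contra hcon
    push Not at hcon
    obtain ⟨x₁, hx₁, x₂, hx₂, h12⟩ := hcon
    have hnet := finite_net hC (p i) (hball i) (hfrag i) T hmul hT (fun s => hne s i) hΛ F hFc hFne
      hFinv hFmin
    -- boundedness
    let D : Set ℝ := {r | ∃ x ∈ F, ∃ y ∈ F, r = p i ((x : V) - y)}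
    have hDb : BddAbove D := by
      obtain ⟨B, hB1, hB2⟩ := hnet 1 one_pos
      have hR : ∀ x ∈ F, p i ((x : V) - x₁) ≤ 1 + ∑ b ∈ B, p i ((b : V) - x₁) := by
        intro x hx
        obtain ⟨b, hb, hxb⟩ := hB2 x hx
        have h1 : p i ((x : V) - x₁) ≤ p i ((x : V) - b) + p i ((b : V) - x₁) := by
          have : (x : V) - x₁ = ((x : V) - b) + ((b : V) - x₁) := by abel
          rw [this]
          exact map_add_le_add _ _ _
        have h2 : p i ((b : V) - x₁) ≤ ∑ b ∈ B, p i ((b : V) - x₁) :=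
          Finset.single_le_sum (f := fun b : C => p i ((b : V) - x₁))
            (fun b _ => apply_nonneg _ _) hb
        linarith
      refine ⟨(1 + ∑ b ∈ B, p i ((b : V) - x₁)) + (1 + ∑ b ∈ B, p i ((b : V) - x₁)), ?_⟩
      rintro _ ⟨x, hx, y, hy, rfl⟩
      have h1 : p i ((x : V) - y) ≤ p i ((x : V) - x₁) + p i ((x₁ : V) - y) := by
        have : (x : V) - y = ((x : V) - x₁) + ((x₁ : V) - y) := by abel
        rw [this]
        exact map_add_le_add _ _ _
      have h2 := hR x hx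
      have h3 := hR y hy
      rw [map_sub_rev] at h3
      linarith
    set M : ℝ := sSup D with hM
    have hle : ∀ x ∈ F, ∀ y ∈ F, p i ((x : V) - y) ≤ M := by
      intro x hx y hy
      exact le_csSup hDb ⟨x, hx, y, hy, rfl⟩
    have hMpos : 0 < M := by
      have h1 : 0 < p i ((x₁ : V) - x₂) := lt_of_le_of_ne (apply_nonneg _ _) (Ne.symm h12)
      exact h1.trans_le (hle _ hx₁ _ hx₂)
    obtain ⟨B, hB1, hB2⟩ := hnet (M / 2) (half_pos hMpos)
    have hBne : B.Nonempty := by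
      obtain ⟨b, hb, -⟩ := hB2 x₁ hx₁
      exact ⟨b, hb⟩
    have hn : (0 : ℝ) < B.card := by exact_mod_cast hBne.card_pos
    set n : ℝ := (B.card : ℝ) with hndef
    let u : V := ∑ b ∈ B, n⁻¹ • (b : V)
    have huA : u ∈ Subtype.val '' A := by
      refine hAconv.sum_mem (fun b _ => by positivity) ?_ (fun b hb => ⟨b, hFA (hB1 b hb), rfl⟩)
      rw [Finset.sum_const, nsmul_eq_mul]
      exact mul_inv_cancel₀ hn.ne'
    obtain ⟨u', hu'A, hu'⟩ := huA
    set r : ℝ := n⁻¹ * (M / 2 + (n - 1) * M) with hr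
    have hrM : r < M := by
      have h1 : M - r = n⁻¹ * (M / 2) := by
        rw [hr]
        field_simp
        ring
      have h2 : 0 < n⁻¹ * (M / 2) := by positivity
      linarith
    have hur : ∀ y ∈ F, p i ((u' : V) - y) ≤ r := by
      intro y hy
      have h1 : (u' : V) - y = ∑ b ∈ B, n⁻¹ • ((b : V) - y) := by
        rw [hu']
        simp only [smul_sub, Finset.sum_sub_distrib]
        rw [Finset.sum_const, ← Nat.cast_smul_eq_nsmul ℝ, ← hndef, smul_smul,
          mul_inv_cancel₀ hn.ne', one_smul]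
      rw [h1]
      have h2 : p i (∑ b ∈ B, n⁻¹ • ((b : V) - y)) ≤ ∑ b ∈ B, n⁻¹ * p i ((b : V) - y) := by
        refine (Finset.le_sum_of_subadditive (p i) (map_zero (p i)).le (map_add_le_add (p i)) B
          fun b => n⁻¹ • ((b : V) - y)).trans (le_of_eq ?_)
        refine Finset.sum_congr rfl fun b _ => ?_
        rw [map_smul_eq_mul, Real.norm_of_nonneg (by positivity)]
      refine h2.trans ?_
      rw [← Finset.mul_sum, hr]
      refine mul_le_mul_of_nonneg_left ?_ (by positivity)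
      obtain ⟨b₀, hb₀, hyb₀⟩ := hB2 y hy
      rw [← Finset.add_sum_erase B _ hb₀]
      have h3 : p i ((b₀ : V) - y) ≤ M / 2 := by
        rw [map_sub_rev]
        exact hyb₀
      have h4 : ∑ b ∈ B.erase b₀, p i ((b : V) - y) ≤ (n - 1) * M := by
        have h5 : ∑ b ∈ B.erase b₀, p i ((b : V) - y) ≤ ∑ _b ∈ B.erase b₀, M :=
          Finset.sum_le_sum fun b hb => hle b (hB1 b (Finset.mem_of_mem_erase hb)) y hy
        refine h5.trans (le_of_eq ?_)
        rw [Finset.sum_const, Finset.card_erase_of_mem hb₀, nsmul_eq_mul,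
          Nat.cast_sub hBne.card_pos, Nat.cast_one]
      linarith
    -- the smaller set
    let A₁ : Set C := A ∩ ⋂ y ∈ F, {x : C | p i ((x : V) - y) ≤ r}
    have hA₁c : IsClosed A₁ :=
      hAc.inter (isClosed_biInter fun y _ => (hball i y r).preimage continuous_subtype_val)
    have hA₁ne : A₁.Nonempty := ⟨u', hu'A, mem_iInter₂.2 fun y hy => hur y hy⟩
    obtain ⟨y₀, hy₀⟩ := hFne
    obtain ⟨Λ, hΛ'⟩ := hΛ y₀
    have hA₁inv : Inv T A₁ := by
      rintro s x ⟨hxA, hxr⟩
      refine ⟨hAinv s x hxA, mem_iInter₂.2 fun y hy => ?_⟩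
      obtain ⟨z, hz, rfl⟩ := hΛ'.surj hT hFc hFinv hy₀ hFmin s y hy
      exact (hne s i x z).trans (mem_iInter₂.1 hxr z hz)
    have hA₁conv : Convex ℝ (Subtype.val '' A₁) := by
      have himg : Subtype.val '' A₁ = (Subtype.val '' A : Set V) ∩
          ⋂ y ∈ F, {v : V | p i (v - y) ≤ r} := by
        ext v
        constructor
        · rintro ⟨x, ⟨hxA, hxr⟩, rfl⟩
          exact ⟨⟨x, hxA, rfl⟩, mem_iInter₂.2 fun y hy => mem_iInter₂.1 hxr y hy⟩
        · rintro ⟨⟨x, hxA, rfl⟩, hxr⟩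
          exact ⟨x, ⟨hxA, mem_iInter₂.2 fun y hy => mem_iInter₂.1 hxr y hy⟩, rfl⟩
      rw [himg]
      refine hAconv.inter (convex_iInter₂ fun y hy => ?_)
      have : {v : V | p i (v - y) ≤ r} = (p i).closedBall (y : V) r := by
        ext v
        rw [Seminorm.mem_closedBall]
        rfl
      rw [this]
      exact Seminorm.convex_closedBall _ _ _
    have hA₁A := hAmin A₁ inter_subset_left hA₁c hA₁ne ⟨hA₁inv, hA₁conv⟩
    have hMr : M ≤ r := by
      refine csSup_le ⟨_, x₁, hx₁, x₂, hx₂, rfl⟩ ?_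
      rintro _ ⟨x, hx, y, hy, rfl⟩
      have hxA : x ∈ A₁ := by
        rw [hA₁A]
        exact hFA hx
      exact mem_iInter₂.1 hxA.2 y hy
    linarith
  obtain ⟨x, hx⟩ := hFne
  refine ⟨x, fun s => ?_⟩
  have h1 := hsep ((T s x : V) - x) fun i => hzero i _ (hFinv s x hx) _ hx
  exact Subtype.val_injective (sub_eq_zero.1 h1)

end Main

end Pool.Agent.K7.H82
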