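import Pool.Agent.K7.H47.DM.Stm4

set_option autoImplicit false

open Polynomial

namespace Pool.Agent.K7.H82.D4

open Pool.Agent.K7.H47.DM4

theorem lead (hU : StU) (hB : StBlk) : StK := by
  classical
  intro ι _ _ t j cl ht hinj hex
  -- an optimal matching
  obtain ⟨σ, hσ, hopt⟩ : ∃ σ : Equiv.Perm ι, Feas t j σ ∧
      ∀ τ, Feas t j τ → Wt t cl τ ≤ Wt t cl σ := by
    obtain ⟨σ0, hσ0⟩ := hex
    have hne : (Finset.univ.filter (fun σ : Equiv.Perm ι => Feas t j σ)).Nonempty :=
      ⟨σ0, by simpa using hσ0⟩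
    obtain ⟨σ, h1, h2⟩ := Finset.exists_max_image _ (fun σ => Wt t cl σ) hne
    refine ⟨σ, by simpa using h1, fun τ hτ => h2 τ (by simpa using hτ)⟩
  have hdet := hB ι t j cl ht hinj σ hσ
  intro h0
  apply hdet
  have hco : (Matrix.of fun r c =>
      (C (((t r).choose (j c) : ℕ) : ℚ) * X ^ (cl c * t r) : ℚ[X])).det.coeff (Wt t cl σ) = 0 := by
    rw [h0]; simp
  rw [Matrix.det_apply] at hco
  rw [Matrix.det_apply]
  rw [Polynomial.finsetSum_coeff] at hco
  refine Eq.trans ?_ hco
  apply Finset.sum_congr rfl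
  intro τ _
  have hprod : ∏ c, (Matrix.of fun r c =>
      (C (((t r).choose (j c) : ℕ) : ℚ) * X ^ (cl c * t r) : ℚ[X])) (τ c) c =
      C (∏ c, (((t (τ c)).choose (j c) : ℕ) : ℚ)) * X ^ (Wt t cl τ) := by
    simp only [Matrix.of_apply]
    rw [Finset.prod_mul_distrib, Finset.prod_pow_eq_pow_sum]
    simp [Wt]
  rw [hprod]
  have hsm : ((Equiv.Perm.sign τ) • (C (∏ c, (((t (τ c)).choose (j c) : ℕ) : ℚ)) *
      X ^ (Wt t cl τ) : ℚ[X])).coeff (Wt t cl σ) =
      (Equiv.Perm.sign τ) • (if Wt t cl σ = Wt t cl τ then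
        ∏ c, (((t (τ c)).choose (j c) : ℕ) : ℚ) else 0) := by
    rcases Int.units_eq_one_or (Equiv.Perm.sign τ) with h | h
    · rw [h, one_smul, one_smul, Polynomial.coeff_C_mul, Polynomial.coeff_X_pow]
      split_ifs <;> simp
    · rw [h]
      simp only [Units.neg_smul, one_smul, Polynomial.coeff_neg]
      rw [Polynomial.coeff_C_mul, Polynomial.coeff_X_pow]
      split_ifs <;> simp
  rw [hsm]
  congr 1
  by_cases hf : Feas t j τ
  · by_cases hw : Wt t cl σ = Wt t cl τ
    · rw [if_pos hw]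
      have hcls := hU ι t j cl ht σ τ hσ hf hopt (fun ρ hρ => hw ▸ hopt ρ hρ)
      apply Finset.prod_congr rfl
      intro c _
      rw [Matrix.of_apply, if_pos]
      rw [hcls (τ c), Equiv.symm_apply_apply]
    · rw [if_neg hw]
      by_contra hne
      apply hw
      have hall : ∀ c, cl (σ.symm (τ c)) = cl c := by
        intro c
        by_contra hc
        apply hne
        apply Finset.prod_eq_zero (Finset.mem_univ c)
        rw [Matrix.of_apply, if_neg hc]
      have h1 : Wt t cl τ = ∑ r, cl (σ.symm r) * t r := by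
        unfold Wt
        rw [← Equiv.sum_comp τ (fun r => cl (σ.symm r) * t r)]
        apply Finset.sum_congr rfl
        intro c _
        rw [hall c]
      have h2 : Wt t cl σ = ∑ r, cl (σ.symm r) * t r := by
        unfold Wt
        rw [← Equiv.sum_comp σ (fun r => cl (σ.symm r) * t r)]
        apply Finset.sum_congr rfl
        intro c _
        rw [Equiv.symm_apply_apply]
      rw [h1, h2]
  · have hz : ∃ c, (t (τ c)).choose (j c) = 0 := by
      unfold Feas at hf
      push Not at hf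
      obtain ⟨c, hc⟩ := hf
      exact ⟨c, Nat.choose_eq_zero_of_lt hc⟩
    obtain ⟨c, hc⟩ := hz
    have e1 : ∏ c, (((t (τ c)).choose (j c) : ℕ) : ℚ) = 0 :=
      Finset.prod_eq_zero (Finset.mem_univ c) (by rw [hc]; simp)
    rw [e1]
    have e2 : ∏ c, (Matrix.of fun r c => if cl (σ.symm r) = cl c then
        (((t r).choose (j c) : ℕ) : ℚ) else 0) (τ c) c = 0 := by
      apply Finset.prod_eq_zero (Finset.mem_univ c)
      rw [Matrix.of_apply, hc]
      simp
    rw [e2]
    simp

end Pool.Agent.K7.H82.D4
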