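import Mathlib

/-!
# Weakly compact sets are fragmented by continuous seminorms
-/

set_option autoImplicit false

open Filter Topology Set

namespace Pool.Agent.K7.H82

section Tree

/-- The finite initial pieces of a branch, last entry first. -/
def piece (β : ℕ → Bool) : ℕ → List Bool
  | 0 => []
  | n + 1 => β n :: piece β n

theorem piece_congr (β γ : ℕ → Bool) (n : ℕ) (h : ∀ m, m < n → β m = γ m) :
    piece β n = piece γ n := by
  induction n with
  | zero => rfl
  | succ n ih =>
    simp only [piece]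
    rw [ih (fun m hm => h m (by omega)), h n (by omega)]

/-- No injection from branches into a countable set. -/
theorem no_injection {X : Type*} (D : Set X) (hD : D.Countable) (f : (ℕ → Bool) → X)
    (hf : Function.Injective f) (hfD : ∀ β, f β ∈ D) : False := by
  have : Countable D := hD.to_subtype
  obtain ⟨e, he⟩ := Countable.exists_injective_nat D
  have h1 : Function.Injective (fun β : ℕ → Bool => e ⟨f β, hfD β⟩) := by
    intro β γ h
    have := he h
    exact hf (congrArg Subtype.val this)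
  classical
  have h2 : Function.Injective (fun s : Set ℕ => (fun n => decide (n ∈ s) : ℕ → Bool)) := by
    intro s t h
    ext n
    have := congrFun h n
    simpa using this
  exact Function.cantor_injective _ (h1.comp h2)

end Tree

section Abstract

variable {V : Type*} [TopologicalSpace V]

/-- Cluster points of a sequence eventually in `t` lie in the closure of `t`. -/
theorem mem_closure_of_cluster {x : V} {u : ℕ → V} {t : Set V}
    (h : MapClusterPt x atTop u) (ht : ∀ᶠ n in atTop, u n ∈ t) : x ∈ closure t := by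
  rw [mem_closure_iff_nhds]
  intro s hs
  obtain ⟨n, hn1, hn2⟩ := ((h.frequently hs).and_eventually ht).exists
  exact ⟨u n, hn1, hn2⟩

/-- The tree argument, in an abstract form: `d` is a real valued function of two variables.
If every relatively open nonempty piece splits, there are uncountably many far apart points in the
closure of a countable set. -/
theorem exists_branches (F : Set V) (hF : IsCompact F) (hne : F.Nonempty) (d : V → V → ℝ)
    (hsymm : ∀ x y, d x y = d y x) (ε : ℝ)
    (hstep : ∀ U : Set V, IsOpen U → (U ∩ F).Nonempty → ∃ U₀ U₁ : Set V, IsOpen U₀ ∧ IsOpen U₁ ∧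
      U₀ ⊆ U ∧ U₁ ⊆ U ∧ (U₀ ∩ F).Nonempty ∧ (U₁ ∩ F).Nonempty ∧
      ∀ x ∈ closure U₀, ∀ y ∈ closure U₁, ε < d x y) :
    ∃ (A : Set V) (x : (ℕ → Bool) → V), A.Countable ∧ (∀ β, x β ∈ closure A) ∧
      ∀ β γ, β ≠ γ → ε < d (x β) (x γ) := by
  classical
  let O := {U : Set V // IsOpen U ∧ (U ∩ F).Nonempty}
  choose U₀ U₁ h0 h1 h2 h3 h4 h5 h6 using fun U : O => hstep U.1 U.2.1 U.2.2
  let T : List Bool → O := fun l => List.rec (motive := fun _ => O)
    ⟨univ, isOpen_univ, by simpa using hne⟩
    (fun b _ U => if b then ⟨U₁ U, h1 U, h5 U⟩ else ⟨U₀ U, h0 U, h4 U⟩) l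
  have hT : ∀ b l, T (b :: l) = if b then ⟨U₁ (T l), h1 (T l), h5 (T l)⟩
      else ⟨U₀ (T l), h0 (T l), h4 (T l)⟩ := fun b l => rfl
  have hsub : ∀ b l, (T (b :: l)).1 ⊆ (T l).1 := by
    intro b l
    rw [hT]
    cases b with
    | true => exact h3 (T l)
    | false => exact h2 (T l)
  have hdist : ∀ l, ∀ x ∈ closure (T (false :: l)).1, ∀ y ∈ closure (T (true :: l)).1, ε < d x y := by
    intro l
    exact h6 (T l)
  have hanti : ∀ β : ℕ → Bool, Antitone fun n => (T (piece β n)).1 :=
    fun β => antitone_nat_of_succ_le fun n => hsub (β n) (piece β n)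
  choose a haT haF using fun l => (T l).2.2
  have hclus : ∀ β : ℕ → Bool, ∃ x ∈ F, MapClusterPt x atTop fun n => a (piece β n) := by
    intro β
    have hle : map (fun n => a (piece β n)) atTop ≤ 𝓟 F := by
      rw [le_principal_iff]
      exact mem_map.2 (Eventually.of_forall fun n => haF _)
    obtain ⟨x, hx, hc⟩ := hF hle
    exact ⟨x, hx, hc⟩
  choose x hxF hx using hclus
  have hxA : ∀ β, x β ∈ closure (range a) := by
    intro β
    exact mem_closure_of_cluster (hx β) (Eventually.of_forall fun n => ⟨_, rfl⟩)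
  have hxT : ∀ β n, x β ∈ closure (T (piece β n)).1 := by
    intro β n
    refine mem_closure_of_cluster (hx β) ?_
    filter_upwards [eventually_ge_atTop n] with m hm
    exact hanti β hm (haT _)
  refine ⟨range a, x, countable_range a, hxA, ?_⟩
  intro β γ hne
  have hex : ∃ n, β n ≠ γ n := Function.ne_iff.1 hne
  let n := Nat.find hex
  have hn : β n ≠ γ n := Nat.find_spec hex
  have hlt : ∀ m, m < n → β m = γ m := by
    intro m hm
    by_contra h
    exact Nat.find_min hex hm h
  have hp : piece β n = piece γ n := piece_congr β γ n hlt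
  have hb := hxT β (n + 1)
  have hc := hxT γ (n + 1)
  simp only [piece] at hb hc
  rw [← hp] at hc
  rcases hβ : β n with _ | _
  · have hγ : γ n = true := by
      rw [hβ] at hn
      simpa using hn.symm
    rw [hβ] at hb
    rw [hγ] at hc
    exact hdist _ _ hb _ hc
  · have hγ : γ n = false := by
      rw [hβ] at hn
      simpa using hn.symm
    rw [hβ] at hb
    rw [hγ] at hc
    rw [hsymm]
    exact hdist _ _ hc _ hb

end Abstract

section Concrete

variable {𝕜 E : Type*} [RCLike 𝕜] [AddCommGroup E] [Module 𝕜 E] [Module ℝ E] [IsScalarTower ℝ 𝕜 E]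
  [TopologicalSpace E] [IsTopologicalAddGroup E] [ContinuousSMul 𝕜 E] [LocallyConvexSpace ℝ E]

/-- A seminorm, as a real seminorm on the space with its weak topology. -/
noncomputable def wkSeminorm (p : Seminorm 𝕜 E) : Seminorm ℝ (WeakSpace 𝕜 E) :=
  Seminorm.of (fun x => p ((toWeakSpace 𝕜 E).symm x))
    (fun x y => by
      rw [map_add]
      exact map_add_le_add p _ _)
    (fun a x => by
      have : (toWeakSpace 𝕜 E).symm (a • x) = a • (toWeakSpace 𝕜 E).symm x := rfl
      rw [this, ← smul_one_smul 𝕜 a, map_smul_eq_mul, norm_smul, norm_one, mul_one])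

omit [IsTopologicalAddGroup E] [ContinuousSMul 𝕜 E] [LocallyConvexSpace ℝ E] in
theorem wkSeminorm_apply (p : Seminorm 𝕜 E) (x : WeakSpace 𝕜 E) :
    wkSeminorm p x = p ((toWeakSpace 𝕜 E).symm x) := rfl

/-- The balls of a continuous seminorm are weakly closed. -/
theorem isClosed_ball_wk (p : Seminorm 𝕜 E) (hp : Continuous p) (y : WeakSpace 𝕜 E) (r : ℝ) :
    IsClosed {x : WeakSpace 𝕜 E | wkSeminorm p (x - y) ≤ r} := by
  let y' : E := (toWeakSpace 𝕜 E).symm y
  let B : Set E := {x | p (x - y') ≤ r}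
  have hB : IsClosed B := isClosed_le (hp.comp (continuous_id.sub continuous_const)) continuous_const
  have hconv : Convex ℝ B := by
    have h1 : B = (p.restrictScalars ℝ).closedBall y' r := by
      ext x
      rw [Seminorm.mem_closedBall]
      rfl
    rw [h1]
    exact Seminorm.convex_closedBall _ _ _
  have himg : {x : WeakSpace 𝕜 E | wkSeminorm p (x - y) ≤ r} = toWeakSpace 𝕜 E '' B := by
    ext x
    constructor
    · intro hx
      exact ⟨(toWeakSpace 𝕜 E).symm x, hx, rfl⟩
    · rintro ⟨z, hz, rfl⟩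
      exact hz
  rw [himg]
  have := hconv.toWeakSpace_closure 𝕜
  rw [hB.closure_eq] at this
  rw [this]
  exact isClosed_closure

/-- The weak closure of a countable set is separable for every continuous seminorm. -/
theorem exists_countable_dense_wk (p : Seminorm 𝕜 E) (hp : Continuous p) (A : Set (WeakSpace 𝕜 E))
    (hA : A.Countable) (ε : ℝ) (hε : 0 < ε) :
    ∃ D : Set (WeakSpace 𝕜 E), D.Countable ∧ ∀ x ∈ closure A, ∃ d ∈ D, wkSeminorm p (x - d) < ε := by
  have hsm : ContinuousSMul ℝ E := IsScalarTower.continuousSMul 𝕜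
  let A' : Set E := (toWeakSpace 𝕜 E).symm '' A
  have hA' : A'.Countable := hA.image _
  have hsep : TopologicalSpace.IsSeparable (Submodule.span ℝ A' : Set E) := hA'.isSeparable.span
  obtain ⟨D, hD, hD'⟩ := hsep.closure
  refine ⟨toWeakSpace 𝕜 E '' D, hD.image _, ?_⟩
  intro x hx
  have hAs : A ⊆ toWeakSpace 𝕜 E '' (Submodule.span ℝ A' : Set E) := by
    intro a ha
    exact ⟨(toWeakSpace 𝕜 E).symm a, Submodule.subset_span ⟨a, ha, rfl⟩, rfl⟩
  have hx1 : x ∈ closure (toWeakSpace 𝕜 E '' (Submodule.span ℝ A' : Set E)) := closure_mono hAs hx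
  rw [← (Submodule.span ℝ A').convex.toWeakSpace_closure 𝕜] at hx1
  obtain ⟨z, hz, rfl⟩ := hx1
  have hz2 : z ∈ closure D := hD' hz
  have hopen : IsOpen {w : E | p (z - w) < ε} :=
    isOpen_lt (hp.comp (continuous_const.sub continuous_id)) continuous_const
  obtain ⟨w, hw1, hw2⟩ := mem_closure_iff.1 hz2 _ hopen (by simpa using hε)
  exact ⟨toWeakSpace 𝕜 E w, ⟨w, hw2, rfl⟩, hw1⟩

/-- Splitting an open set. -/
theorem split_wk (p : Seminorm 𝕜 E) (hp : Continuous p) (F : Set (WeakSpace 𝕜 E)) (ε : ℝ)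
    (hbad : ∀ U : Set (WeakSpace 𝕜 E), IsOpen U → (U ∩ F).Nonempty →
      ∃ x ∈ U ∩ F, ∃ y ∈ U ∩ F, ε < wkSeminorm p (x - y))
    (U : Set (WeakSpace 𝕜 E)) (hU : IsOpen U) (hne : (U ∩ F).Nonempty) :
    ∃ U₀ U₁ : Set (WeakSpace 𝕜 E), IsOpen U₀ ∧ IsOpen U₁ ∧
      U₀ ⊆ U ∧ U₁ ⊆ U ∧ (U₀ ∩ F).Nonempty ∧ (U₁ ∩ F).Nonempty ∧
      ∀ x ∈ closure U₀, ∀ y ∈ closure U₁, ε < wkSeminorm p (x - y) := by
  have hsm : ContinuousSMul ℝ E := IsScalarTower.continuousSMul 𝕜
  obtain ⟨x, hx, y, hy, hxy⟩ := hbad U hU hne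
  let x' : E := (toWeakSpace 𝕜 E).symm x
  let y' : E := (toWeakSpace 𝕜 E).symm y
  let B : Set E := {x | p x ≤ ε}
  have hB : IsClosed B := isClosed_le hp continuous_const
  have hconv : Convex ℝ B := by
    have h1 : B = (p.restrictScalars ℝ).closedBall 0 ε := by
      ext x
      rw [Seminorm.mem_closedBall, sub_zero]
      rfl
    rw [h1]
    exact Seminorm.convex_closedBall _ _ _
  have hxyB : x' - y' ∉ B := by
    intro h
    exact absurd hxy (not_lt.2 h)
  obtain ⟨f, u, hfu, hux⟩ := RCLike.geometric_hahn_banach_closed_point (𝕜 := 𝕜) hconv hB hxyB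
  let g : WeakSpace 𝕜 E → ℝ := fun v => RCLike.re (f ((toWeakSpace 𝕜 E).symm v))
  have hg : Continuous g := RCLike.continuous_re.comp
    (WeakBilin.eval_continuous (topDualPairing 𝕜 E).flip f)
  have hgsub : ∀ v w, g (v - w) = g v - g w := by
    intro v w
    simp only [g, map_sub]
  have hgB : ∀ v, wkSeminorm p v ≤ ε → g v < u := fun v hv => hfu _ hv
  have hgxy : u < g x - g y := by
    rw [← hgsub]
    exact hux
  set η : ℝ := (g x - g y - u) / 2 with hη
  have hηpos : 0 < η := by
    rw [hη]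
    linarith
  refine ⟨U ∩ {v | g x - η < g v}, U ∩ {v | g v < g y + η}, ?_, ?_, inter_subset_left,
    inter_subset_left, ⟨x, ⟨hx.1, ?_⟩, hx.2⟩, ⟨y, ⟨hy.1, ?_⟩, hy.2⟩, ?_⟩
  · exact hU.inter (isOpen_lt continuous_const hg)
  · exact hU.inter (isOpen_lt hg continuous_const)
  · change g x - η < g x
    linarith
  · change g y < g y + η
    linarith
  · intro v hv w hw
    have h1 : g x - η ≤ g v := by
      have hc : IsClosed {v | g x - η ≤ g v} := isClosed_le continuous_const hg
      exact closure_minimal (fun z hz => le_of_lt (show g x - η < g z from hz.2)) hc hv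
    have h2 : g w ≤ g y + η := by
      have hc : IsClosed {v | g v ≤ g y + η} := isClosed_le hg continuous_const
      exact closure_minimal (fun z hz => le_of_lt (show g z < g y + η from hz.2)) hc hw
    by_contra hcon
    have h3 := hgB _ (not_lt.1 hcon)
    rw [hgsub] at h3
    linarith

/-- Weakly compact sets are fragmented by every continuous seminorm. -/
theorem fragment_wk (p : Seminorm 𝕜 E) (hp : Continuous p) (F : Set (WeakSpace 𝕜 E))
    (hF : IsCompact F) (hne : F.Nonempty) (ε : ℝ) (hε : 0 < ε) :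
    ∃ U : Set (WeakSpace 𝕜 E), IsOpen U ∧ (U ∩ F).Nonempty ∧
      ∀ x ∈ U ∩ F, ∀ y ∈ U ∩ F, wkSeminorm p (x - y) ≤ ε := by
  by_contra hcon
  push Not at hcon
  obtain ⟨A, x, hA, hxA, hsep⟩ := exists_branches F hF hne (fun x y => wkSeminorm p (x - y))
    (fun x y => map_sub_rev (wkSeminorm p) x y) ε (split_wk p hp F ε hcon)
  obtain ⟨D, hD, hD'⟩ := exists_countable_dense_wk p hp A hA (ε / 2) (half_pos hε)
  choose f hfD hf using fun β => hD' (x β) (hxA β)
  refine no_injection D hD f ?_ hfD
  intro β γ hβγ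
  by_contra hne'
  have h1 := hsep β γ hne'
  have h2 := hf β
  have h3 := hf γ
  rw [← hβγ, map_sub_rev] at h3
  have h4 : wkSeminorm p (x β - x γ) ≤ wkSeminorm p (x β - f β) + wkSeminorm p (f β - x γ) := by
    have : x β - x γ = (x β - f β) + (f β - x γ) := by abel
    rw [this]
    exact map_add_le_add _ _ _
  linarith

end Concrete

end Pool.Agent.K7.H82
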