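import Mathlib
import Pool.Agent.H731R2.Riesz

/-!
# Grothendieck: pointwise continuity into `C(K)` with compact bounded domain is weak continuity
-/

set_option autoImplicit false

open MeasureTheory Filter Topology Set

namespace Pool.Agent.K7.H82

section Dom

variable {K : Type*} [TopologicalSpace K] [CompactSpace K] [T2Space K]

/-- A real functional on `C(K, ℝ)` is dominated by a finite measure. -/
theorem exists_dominating_real [MeasurableSpace K] [BorelSpace K] (φ : StrongDual ℝ C(K, ℝ)) :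
    ∃ μ : Measure K, IsFiniteMeasure μ ∧ ∀ h : C(K, ℝ), |φ h| ≤ ∫ x, |h x| ∂μ := by
  let R : C(K, ℂ) →L[ℝ] C(K, ℝ) := ContinuousLinearMap.compLeftContinuous ℝ K Complex.reCLM
  let Φ : StrongDual ℂ C(K, ℂ) := StrongDual.extendRCLike (𝕜 := ℂ) (φ.comp R)
  obtain ⟨μ, hμ, -, hdom⟩ := Pool.Agent.H731R2.exists_dominating_measure Φ
  refine ⟨μ, hμ, fun h => ?_⟩
  let H : C(K, ℂ) := ⟨fun x => (h x : ℂ), by fun_prop⟩
  have h1 := hdom H
  have h2 : (Φ H).re = φ h := by
    have : RCLike.re (Φ H) = (φ.comp R) H := by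
      simp only [Φ, StrongDual.extendRCLike_apply]
      simp
    change RCLike.re (Φ H) = φ h
    rw [this]
    change φ (R H) = φ h
    congr 1
  have h3 : |φ h| ≤ ‖Φ H‖ := by
    rw [← h2]
    exact Complex.abs_re_le_norm _
  refine h3.trans (h1.trans (le_of_eq ?_))
  congr 1
  funext x
  change ‖((h x : ℝ) : ℂ)‖ = |h x|
  rw [Complex.norm_real, Real.norm_eq_abs]

/-- Bounded sequences in `C(K)` converging pointwise converge weakly. -/
theorem tendsto_of_pointwise (φ : StrongDual ℝ C(K, ℝ)) (g : ℕ → C(K, ℝ)) (g₀ : C(K, ℝ)) (M : ℝ)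
    (hM : ∀ n, ‖g n‖ ≤ M) (hg : ∀ x, Tendsto (fun n => g n x) atTop (𝓝 (g₀ x))) :
    Tendsto (fun n => φ (g n)) atTop (𝓝 (φ g₀)) := by
  borelize K
  obtain ⟨μ, hμ, hdom⟩ := exists_dominating_real φ
  have h0 : Tendsto (fun n => ∫ x, |g n x - g₀ x| ∂μ) atTop (𝓝 (∫ x, (0 : ℝ) ∂μ)) := by
    refine tendsto_integral_of_dominated_convergence (fun _ => M + ‖g₀‖) ?_ ?_ ?_ ?_
    · intro n
      have : Continuous fun x => |g n x - g₀ x| := by fun_prop
      exact this.measurable.aestronglyMeasurable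
    · exact integrable_const _
    · intro n
      refine Eventually.of_forall fun x => ?_
      rw [Real.norm_eq_abs, abs_abs]
      refine (abs_sub _ _).trans ?_
      refine add_le_add ?_ ?_
      · exact ((g n).norm_coe_le_norm x).trans (hM n)
      · exact g₀.norm_coe_le_norm x
    · refine Eventually.of_forall fun x => ?_
      have h1 := ((hg x).sub_const (g₀ x)).abs
      simpa using h1
  rw [integral_zero] at h0
  have h1 : Tendsto (fun n => φ (g n - g₀)) atTop (𝓝 0) := by
    refine squeeze_zero_norm (fun n => ?_) h0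
    have := hdom (g n - g₀)
    simpa [Real.norm_eq_abs] using this
  have h2 : Tendsto (fun n => φ (g n - g₀) + φ g₀) atTop (𝓝 (0 + φ g₀)) := h1.add_const _
  simpa using h2

end Dom

section Groth

variable {K : Type*} [TopologicalSpace K] [CompactSpace K]
variable {Z : Type*} [TopologicalSpace Z] [CompactSpace Z]

/-- Simultaneous finite nets for finitely many continuous functions. -/
theorem exists_finite_net (L : Finset (K → ℝ)) (hL : ∀ f ∈ L, Continuous f) (δ : ℝ) (hδ : 0 < δ) :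
    ∃ B : Finset K, ∀ x : K, ∃ b ∈ B, ∀ f ∈ L, |f x - f b| < δ := by
  have hopen : ∀ b : K, IsOpen {x : K | ∀ f ∈ L, |f x - f b| < δ} := by
    intro b
    have : {x : K | ∀ f ∈ L, |f x - f b| < δ} = ⋂ f ∈ L, {x : K | |f x - f b| < δ} := by
      ext x; simp
    rw [this]
    refine isOpen_biInter_finset fun f hf => ?_
    have hc := hL f hf
    exact isOpen_lt (by fun_prop) continuous_const
  obtain ⟨t, ht⟩ := isCompact_univ.elim_finite_subcover (fun b : K => {x : K | ∀ f ∈ L, |f x - f b| < δ})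
    hopen (fun x _ => mem_iUnion.2 ⟨x, by intro f _; simpa using hδ⟩)
  refine ⟨t, fun x => ?_⟩
  have := ht (mem_univ x)
  simp only [mem_iUnion, exists_prop] at this
  exact this

/-- The state of the construction in Grothendieck's theorem. -/
structure GState (Z K : Type*) where
  z : Z
  L : Set Z
  finL : L.Finite
  B : Set K
  finB : B.Finite
  k : ℕ

omit [CompactSpace Z] in
/-- Extraction of a bad sequence. -/
theorem exists_bad_sequence (F : Z → C(K, ℝ)) (hF : ∀ x, Continuous fun z => F z x) (w : Z)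
    (D : Set Z) (hD : ∃ᶠ z in 𝓝 w, z ∈ D) :
    ∃ (z : ℕ → Z) (B : ℕ → Set K), (∀ n, z n ∈ D) ∧ (∀ m n, m < n → B m ⊆ B n) ∧
      (∀ n, ∀ b ∈ B n, |F (z n) b - F w b| < 1 / ((n : ℝ) + 1)) ∧
      (∀ n, ∀ x, ∃ b ∈ B n, |F w x - F w b| < 1 / ((n : ℝ) + 1) ∧
        ∀ m, m < n → |F (z m) x - F (z m) b| < 1 / ((n : ℝ) + 1)) := by
  classical
  let P : GState Z K → Prop := fun s => s.z ∈ D ∧
    (∀ b ∈ s.B, |F s.z b - F w b| < 1 / ((s.k : ℝ) + 1)) ∧
    (∀ x, ∃ b ∈ s.B, |F w x - F w b| < 1 / ((s.k : ℝ) + 1) ∧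
        ∀ y ∈ s.L, |F y x - F y b| < 1 / ((s.k : ℝ) + 1))
  let r : GState Z K → GState Z K → Prop := fun s t => s.B ⊆ t.B ∧ s.z ∈ t.L ∧ s.k < t.k
  obtain ⟨f, hf1, hf2⟩ := exists_seq_of_forall_finset_exists P r (by
    intro S hS
    -- the new list of functions
    let L' : Set Z := ⋃ s ∈ S, {s.z}
    have hL' : L'.Finite := S.finite_toSet.biUnion fun s _ => finite_singleton _
    let k' : ℕ := S.sup GState.k + 1
    have hk' : (0 : ℝ) < 1 / ((k' : ℝ) + 1) := by positivity
    obtain ⟨B₀, hB₀⟩ := exists_finite_net (insert (fun x => F w x) (hL'.toFinset.image fun y x => F y x))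
      (by
        intro g hg
        rw [Finset.mem_insert, Finset.mem_image] at hg
        rcases hg with rfl | ⟨y, _, rfl⟩
        · exact (F w).continuous
        · exact (F y).continuous) (1 / ((k' : ℝ) + 1)) hk'
    let B' : Set K := (⋃ s ∈ S, s.B) ∪ B₀
    have hB' : B'.Finite := (S.finite_toSet.biUnion fun s _ => s.finB).union B₀.finite_toSet
    have hev : ∀ᶠ z in 𝓝 w, ∀ b ∈ B', |F z b - F w b| < 1 / ((k' : ℝ) + 1) := by
      rw [Filter.eventually_all_finite hB']
      intro b _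
      have h1 : Tendsto (fun z => |F z b - F w b|) (𝓝 w) (𝓝 |F w b - F w b|) :=
        (((hF b).tendsto w).sub_const _).abs
      rw [sub_self, abs_zero] at h1
      exact h1.eventually (gt_mem_nhds hk')
    obtain ⟨z', hz'D, hz'⟩ := (hD.and_eventually hev).exists
    refine ⟨⟨z', L', hL', B', hB', k'⟩, ⟨hz'D, hz', ?_⟩, ?_⟩
    · intro x
      obtain ⟨b, hb, hb'⟩ := hB₀ x
      refine ⟨b, Or.inr hb, hb' _ (Finset.mem_insert_self _ _), ?_⟩
      intro y hy
      exact hb' _ (Finset.mem_insert_of_mem (Finset.mem_image.2 ⟨y, hL'.mem_toFinset.2 hy, rfl⟩))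
    · intro s hs
      refine ⟨?_, ?_, ?_⟩
      · exact (subset_biUnion_of_mem (u := fun s : GState Z K => s.B) hs).trans subset_union_left
      · exact mem_biUnion (t := fun s : GState Z K => {s.z}) hs rfl
      · exact Nat.lt_succ_of_le (Finset.le_sup (f := GState.k) hs))
  have hk : ∀ n, n ≤ (f n).k := by
    intro n
    induction n with
    | zero => exact Nat.zero_le _
    | succ n ih => exact lt_of_le_of_lt ih (hf2 n (n + 1) (Nat.lt_succ_self n)).2.2
  have hk' : ∀ n, 1 / (((f n).k : ℝ) + 1) ≤ 1 / ((n : ℝ) + 1) := by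
    intro n
    have : (n : ℝ) ≤ (f n).k := by exact_mod_cast hk n
    exact one_div_le_one_div_of_le (by positivity) (by linarith)
  refine ⟨fun n => (f n).z, fun n => (f n).B, fun n => (hf1 n).1, fun m n h => (hf2 m n h).1, ?_, ?_⟩
  · intro n b hb
    exact ((hf1 n).2.1 b hb).trans_le (hk' n)
  · intro n x
    obtain ⟨b, hb, hb1, hb2⟩ := (hf1 n).2.2 x
    refine ⟨b, hb, hb1.trans_le (hk' n), fun m hm => ?_⟩
    exact (hb2 _ (hf2 m n hm).2.1).trans_le (hk' n)

/-- The bad sequence converges pointwise. -/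
theorem bad_sequence_tendsto (F : Z → C(K, ℝ)) (hF : ∀ x, Continuous fun z => F z x) (w : Z)
    (z : ℕ → Z) (B : ℕ → Set K) (hB : ∀ m n, m < n → B m ⊆ B n)
    (h1 : ∀ n, ∀ b ∈ B n, |F (z n) b - F w b| < 1 / ((n : ℝ) + 1))
    (h2 : ∀ n, ∀ x, ∃ b ∈ B n, |F w x - F w b| < 1 / ((n : ℝ) + 1) ∧
        ∀ m, m < n → |F (z m) x - F (z m) b| < 1 / ((n : ℝ) + 1)) (x : K) :
    Tendsto (fun n => F (z n) x) atTop (𝓝 (F w x)) := by
  refine (Filter.tendsto_iff_ultrafilter _ _ _).2 fun V hV => ?_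
  choose y hyB hyw hyz using fun n => h2 n x
  -- limits
  obtain ⟨ζ, -, hζ⟩ := isCompact_univ.ultrafilter_le_nhds (V.map z) (by simp)
  obtain ⟨x', -, hx'⟩ := isCompact_univ.ultrafilter_le_nhds (V.map y) (by simp)
  have hζ' : Tendsto z V (𝓝 ζ) := hζ
  have hx'' : Tendsto y V (𝓝 x') := hx'
  have hinv : Tendsto (fun n : ℕ => 1 / ((n : ℝ) + 1)) V (𝓝 0) :=
    tendsto_one_div_add_atTop_nhds_zero_nat.mono_left hV
  -- general principle
  have hgen : ∀ g : C(K, ℝ), (∀ᶠ n in (V : Filter ℕ), |g x - g (y n)| < 1 / ((n : ℝ) + 1)) → g x' = g x := by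
    intro g hg
    have ha : Tendsto (fun n => g (y n)) V (𝓝 (g x')) := (g.continuous.tendsto x').comp hx''
    have hb : Tendsto (fun n => g x - g (y n)) V (𝓝 0) := by
      refine squeeze_zero_norm' ?_ hinv
      filter_upwards [hg] with n hn
      rw [Real.norm_eq_abs]
      exact hn.le
    have hc : Tendsto (fun n => g x - g (y n)) V (𝓝 (g x - g x')) := ha.const_sub _
    have := tendsto_nhds_unique hb hc
    linarith
  have hw : F w x' = F w x := hgen (F w) (Eventually.of_forall hyw)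
  have hz : ∀ m, F (z m) x' = F (z m) x := by
    intro m
    refine hgen (F (z m)) ?_
    have : ∀ᶠ n in atTop, m < n := eventually_gt_atTop m
    filter_upwards [hV this] with n hn
    exact hyz n m hn
  have hζx : F ζ x' = F ζ x := by
    have ha : Tendsto (fun n => F (z n) x') V (𝓝 (F ζ x')) := ((hF x').tendsto ζ).comp hζ'
    have hb : Tendsto (fun n => F (z n) x) V (𝓝 (F ζ x)) := ((hF x).tendsto ζ).comp hζ'
    have hc : (fun n => F (z n) x') = fun n => F (z n) x := funext hz
    rw [hc] at ha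
    exact tendsto_nhds_unique ha hb
  have hB' : ∀ m, ∀ b ∈ B m, F ζ b = F w b := by
    intro m b hb
    have ha : Tendsto (fun n => F (z n) b) V (𝓝 (F ζ b)) := ((hF b).tendsto ζ).comp hζ'
    have hb' : Tendsto (fun n => F (z n) b - F w b) V (𝓝 0) := by
      refine squeeze_zero_norm' ?_ hinv
      have : ∀ᶠ n in atTop, m < n := eventually_gt_atTop m
      filter_upwards [hV this] with n hn
      rw [Real.norm_eq_abs]
      exact (h1 n b (hB m n hn hb)).le
    have hc : Tendsto (fun n => F (z n) b - F w b) V (𝓝 (F ζ b - F w b)) := ha.sub_const _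
    have := tendsto_nhds_unique hb' hc
    linarith
  have hfin : F ζ x' = F w x' := by
    have ha : Tendsto (fun n => F ζ (y n)) V (𝓝 (F ζ x')) := ((F ζ).continuous.tendsto x').comp hx''
    have hb : Tendsto (fun n => F w (y n)) V (𝓝 (F w x')) := ((F w).continuous.tendsto x').comp hx''
    have hc : (fun n => F ζ (y n)) = fun n => F w (y n) := funext fun n => hB' n _ (hyB n)
    rw [hc] at ha
    exact tendsto_nhds_unique ha hb
  have hlim : Tendsto (fun n => F (z n) x) V (𝓝 (F ζ x)) := ((hF x).tendsto ζ).comp hζ'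
  rw [← hζx, hfin, hw] at hlim
  exact hlim

/-- **Grothendieck's theorem.** A bounded pointwise continuous map from a compact space into
`C(K)` is weakly continuous. -/
theorem grothendieck [T2Space K] (F : Z → C(K, ℝ)) (hF : ∀ x, Continuous fun z => F z x) (M : ℝ)
    (hM : ∀ z, ‖F z‖ ≤ M) (φ : StrongDual ℝ C(K, ℝ)) : Continuous fun z => φ (F z) := by
  rw [continuous_iff_continuousAt]
  intro w
  rw [ContinuousAt, Metric.tendsto_nhds]
  by_contra hcon
  push Not at hcon
  obtain ⟨ε, hε, hD⟩ := hcon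
  have hD' : ∃ᶠ z in 𝓝 w, z ∈ {z : Z | ε ≤ dist (φ (F z)) (φ (F w))} := by
    refine hD.mono ?_
    intro z hz
    simpa using hz
  obtain ⟨z, B, hzD, hB, h1, h2⟩ := exists_bad_sequence F hF w _ hD'
  have hpt := bad_sequence_tendsto F hF w z B hB h1 h2
  have hlim := tendsto_of_pointwise φ (fun n => F (z n)) (F w) M (fun n => hM _) hpt
  rw [Metric.tendsto_nhds] at hlim
  obtain ⟨n, hn⟩ := (hlim ε hε).exists
  exact absurd hn (not_lt.2 (hzD n))

end Groth

end Pool.Agent.K7.H82
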