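import Mathlib

/-!
# Weakly almost periodic functions, invariant means and the fixed point property (F)
-/

set_option autoImplicit false

open Filter Topology Set
open scoped BoundedContinuousFunction ComplexOrder

namespace Pool.Agent.K7.H82

section Wap

variable {𝕝 S : Type*} [RCLike 𝕝] [Semigroup S] [TopologicalSpace S] [SeparatelyContinuousMul S]

/-- The left translate `ℓ_a f (t) = f (a t)` of a bounded continuous function. -/
def leftTranslate (a : S) (f : S →ᵇ 𝕝) : S →ᵇ 𝕝 :=
  f.compContinuous ⟨fun t => a * t, continuous_const_mul a⟩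

@[simp] theorem leftTranslate_apply (a : S) (f : S →ᵇ 𝕝) (t : S) :
    leftTranslate a f t = f (a * t) := rfl

/-- Weakly almost periodic functions: the orbit under left translations is relatively weakly
compact in the Banach space `C_b(S)`. -/
def IsWAP (f : S →ᵇ 𝕝) : Prop :=
  IsCompact (closure (range fun s : S => toWeakSpace 𝕝 (S →ᵇ 𝕝) (leftTranslate s f)))

theorem IsWAP.add {f g : S →ᵇ 𝕝} (hf : IsWAP f) (hg : IsWAP g) : IsWAP (f + g) := by
  refine (IsCompact.add hf hg).of_isClosed_subset isClosed_closure ?_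
  refine closure_minimal ?_ (IsCompact.add hf hg).isClosed
  rintro _ ⟨s, rfl⟩
  exact ⟨_, subset_closure ⟨s, rfl⟩, _, subset_closure ⟨s, rfl⟩, rfl⟩

theorem isWAP_zero : IsWAP (0 : S →ᵇ 𝕝) := by
  have h : (range fun s : S => toWeakSpace 𝕝 (S →ᵇ 𝕝) (leftTranslate s 0)) ⊆
      {toWeakSpace 𝕝 (S →ᵇ 𝕝) 0} := by
    rintro _ ⟨s, rfl⟩
    rfl
  exact isCompact_singleton.of_isClosed_subset isClosed_closure
    (closure_minimal h isClosed_singleton)

theorem isWAP_one : IsWAP (1 : S →ᵇ 𝕝) := by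
  have h : (range fun s : S => toWeakSpace 𝕝 (S →ᵇ 𝕝) (leftTranslate s 1)) ⊆
      {toWeakSpace 𝕝 (S →ᵇ 𝕝) 1} := by
    rintro _ ⟨s, rfl⟩
    rfl
  exact isCompact_singleton.of_isClosed_subset isClosed_closure
    (closure_minimal h isClosed_singleton)

theorem IsWAP.smul (c : 𝕝) {f : S →ᵇ 𝕝} (hf : IsWAP f) : IsWAP (c • f) := by
  have h1 : IsCompact ((fun x : WeakSpace 𝕝 (S →ᵇ 𝕝) => c • x) '' closure (range fun s : S =>
      toWeakSpace 𝕝 (S →ᵇ 𝕝) (leftTranslate s f))) :=
    IsCompact.image hf (continuous_const_smul c)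
  refine h1.of_isClosed_subset isClosed_closure ?_
  refine closure_minimal ?_ h1.isClosed
  rintro _ ⟨s, rfl⟩
  exact ⟨_, subset_closure ⟨s, rfl⟩, rfl⟩

theorem IsWAP.leftTranslate (a : S) {f : S →ᵇ 𝕝} (hf : IsWAP f) :
    IsWAP (leftTranslate a f) := by
  refine IsCompact.of_isClosed_subset hf isClosed_closure (closure_mono ?_)
  rintro _ ⟨s, rfl⟩
  have h : H82.leftTranslate (a * s) f = H82.leftTranslate s (H82.leftTranslate a f) := by
    ext t
    simp [mul_assoc]
  exact ⟨a * s, congrArg (toWeakSpace 𝕝 (S →ᵇ 𝕝)) h⟩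

variable (𝕝 S) in
/-- The space `WAP(S)` of weakly almost periodic functions. -/
def wap : Submodule 𝕝 (S →ᵇ 𝕝) where
  carrier := {f | IsWAP f}
  add_mem' := IsWAP.add
  zero_mem' := isWAP_zero
  smul_mem' := fun c _ hf => IsWAP.smul c hf

/-- A left invariant mean on `WAP(S)`: a positive linear functional `m` with `m 1 = 1` and
`m (ℓ_s f) = m f`. -/
structure IsLIM (m : wap 𝕝 S →ₗ[𝕝] 𝕝) : Prop where
  nonneg : ∀ f : wap 𝕝 S, (∀ t : S, 0 ≤ (f : S →ᵇ 𝕝) t) → 0 ≤ m f
  one : m ⟨1, isWAP_one⟩ = 1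
  inv : ∀ (s : S) (f : wap 𝕝 S), m ⟨leftTranslate s f, IsWAP.leftTranslate s f.2⟩ = m f

end Wap

section Rep

variable {S 𝕜 E ι : Type*} [Semigroup S] [TopologicalSpace S] [RCLike 𝕜] [AddCommGroup E]
  [Module 𝕜 E] [TopologicalSpace E]

/-- A point of `E` with its weak topology, as a point of `E`. -/
noncomputable def ofWeak (x : WeakSpace 𝕜 E) : E := (toWeakSpace 𝕜 E).symm x

/-- `Q`-nonexpansive self-maps of `C`. -/
def IsNonexpansive (Q : SeminormFamily 𝕜 E ι) (C : Set (WeakSpace 𝕜 E)) (f : C → C) : Prop :=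
  ∀ (i : ι) (x y : C), Q i (ofWeak (f x).1 - ofWeak (f y).1) ≤ Q i (ofWeak x.1 - ofWeak y.1)

/-- Weakly separately continuous, weakly quasi-equicontinuous, `Q`-nonexpansive representations of
`S` on `C`. Here `C` is a subset of `E` with its weak topology, and `C → C` has the product
topology. -/
structure IsRep (Q : SeminormFamily 𝕜 E ι) (C : Set (WeakSpace 𝕜 E)) (T : S → C → C) : Prop where
  mul : ∀ s t : S, T (s * t) = T s ∘ T t
  continuous_map : ∀ s : S, Continuous (T s)
  continuous_orbit : ∀ x : C, Continuous fun s : S => T s x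
  quasi_equicontinuous : ∀ σ ∈ closure (range T), Continuous σ
  nonexpansive : ∀ s : S, IsNonexpansive Q C (T s)

end Rep

/-- Property (F): every weakly separately continuous, weakly quasi-equicontinuous, `Q`-nonexpansive
representation of `S` on a nonempty weakly compact convex subset `C` of a Hausdorff locally convex
space `E` (over a field `𝕜` which is `ℝ` or `ℂ`, with its topology given by the family `Q` of
seminorms) has a common fixed point. -/
def PropertyF.{u, v, w, z} (S : Type u) [Semigroup S] [TopologicalSpace S] : Prop :=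
  ∀ (𝕜 : Type z) [RCLike 𝕜] (E : Type v) [AddCommGroup E] [Module 𝕜 E] [Module ℝ E]
    [IsScalarTower ℝ 𝕜 E] [TopologicalSpace E] [T2Space E] (ι : Type w)
    (Q : SeminormFamily 𝕜 E ι) (_ : WithSeminorms Q)
    (C : Set (WeakSpace 𝕜 E)) (_ : C.Nonempty) (_ : IsCompact C) (_ : Convex ℝ C)
    (T : S → C → C), IsRep Q C T → ∃ x : C, ∀ s : S, T s x = x

end Pool.Agent.K7.H82
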