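import Mathlib
import Pool.Agent.K7.H82.Groth
import Pool.Agent.K7.H82.Frag
import Pool.Agent.K7.H82.Core
import Pool.Agent.K7.H82.WapDefs

/-!
# From a left invariant mean on `WAP(S)` to common fixed points
-/

set_option autoImplicit false

open Filter Topology Set
open scoped BoundedContinuousFunction ComplexOrder

namespace Pool.Agent.K7.H82

section Build

variable {𝕝 S : Type*} [RCLike 𝕝] [Semigroup S] [TopologicalSpace S] [SeparatelyContinuousMul S]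
variable {K : Type*} [TopologicalSpace K] [CompactSpace K] [T2Space K]

/-- The function `t ↦ h (T_t y₀)` on `S`. -/
noncomputable def orbFun (𝕝 : Type*) [RCLike 𝕝] {S : Type*} [TopologicalSpace S]
    {K : Type*} [TopologicalSpace K] [CompactSpace K] (u : C(S, K)) :
    C(K, ℝ) →L[ℝ] (S →ᵇ 𝕝) :=
  LinearMap.mkContinuous
    { toFun := fun h => BoundedContinuousFunction.ofNormedAddCommGroup
        (fun t => ((h (u t) : ℝ) : 𝕝)) (by fun_prop) ‖h‖ (fun t => by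
          rw [RCLike.norm_ofReal]
          exact h.norm_coe_le_norm _)
      map_add' := by
        intro g h
        ext t
        simp
      map_smul' := by
        intro c h
        ext t
        simp [RCLike.real_smul_eq_coe_mul] } 1 (by
      intro h
      rw [one_mul]
      refine (BoundedContinuousFunction.norm_le (norm_nonneg _)).2 fun t => ?_
      change ‖((h (u t) : ℝ) : 𝕝)‖ ≤ ‖h‖
      rw [RCLike.norm_ofReal]
      exact h.norm_coe_le_norm _)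

omit [Semigroup S] [SeparatelyContinuousMul S] [T2Space K] in
theorem orbFun_apply (u : C(S, K)) (h : C(K, ℝ)) (t : S) :
    orbFun 𝕝 u h t = ((h (u t) : ℝ) : 𝕝) := rfl

/-- The functions `t ↦ h (T_t y₀)` are weakly almost periodic. -/
theorem orbFun_mem_wap (T : S → K → K) (hmul : ∀ s t x, T (s * t) x = T s (T t x))
    (hcl : ∀ σ ∈ closure (range T), Continuous σ)
    (y₀ : K) (u : C(S, K)) (hu : ∀ t, u t = T t y₀) (h : C(K, ℝ)) :
    orbFun 𝕝 u h ∈ wap 𝕝 S := by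
  change IsCompact (closure (range fun s : S =>
    toWeakSpace 𝕝 (S →ᵇ 𝕝) (leftTranslate s (orbFun 𝕝 u h))))
  let Z := closure (range T)
  have hZ : CompactSpace Z := isCompact_iff_compactSpace.1 isClosed_closure.isCompact
  let F : Z → C(K, ℝ) := fun σ => ⟨fun x => h (σ.1 x), h.continuous.comp (hcl σ.1 σ.2)⟩
  have hF : ∀ x, Continuous fun σ => F σ x := by
    intro x
    exact h.continuous.comp ((continuous_apply x).comp continuous_subtype_val)
  have hM : ∀ σ, ‖F σ‖ ≤ ‖h‖ := by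
    intro σ
    rw [ContinuousMap.norm_le _ (norm_nonneg _)]
    intro x
    exact h.norm_coe_le_norm _
  let Ψ : Z → WeakSpace 𝕝 (S →ᵇ 𝕝) := fun σ => toWeakSpace 𝕝 (S →ᵇ 𝕝) (orbFun 𝕝 u (F σ))
  have hΨ : Continuous Ψ := by
    refine WeakBilin.continuous_of_continuous_eval _ fun Φ => ?_
    change Continuous fun σ => Φ (orbFun 𝕝 u (F σ))
    have hre : Continuous fun σ => RCLike.re (Φ (orbFun 𝕝 u (F σ))) :=
      grothendieck F hF ‖h‖ hM (RCLike.reCLM.comp ((Φ.restrictScalars ℝ).comp (orbFun 𝕝 u)))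
    have him : Continuous fun σ => RCLike.im (Φ (orbFun 𝕝 u (F σ))) :=
      grothendieck F hF ‖h‖ hM (RCLike.imCLM.comp ((Φ.restrictScalars ℝ).comp (orbFun 𝕝 u)))
    have heq : (fun σ => Φ (orbFun 𝕝 u (F σ))) = fun σ =>
        ((RCLike.re (Φ (orbFun 𝕝 u (F σ))) : ℝ) : 𝕝) +
          ((RCLike.im (Φ (orbFun 𝕝 u (F σ))) : ℝ) : 𝕝) * RCLike.I := by
      funext σ
      exact (RCLike.re_add_im _).symm
    rw [heq]
    fun_prop
  have hcomp : IsCompact (range Ψ) := isCompact_range hΨ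
  refine hcomp.of_isClosed_subset isClosed_closure (closure_minimal ?_ hcomp.isClosed)
  rintro _ ⟨s, rfl⟩
  refine ⟨⟨T s, subset_closure ⟨s, rfl⟩⟩, ?_⟩
  refine congrArg (toWeakSpace 𝕝 (S →ᵇ 𝕝)) ?_
  ext t
  change ((h (T s (u t)) : ℝ) : 𝕝) = ((h (u (s * t)) : ℝ) : 𝕝)
  rw [hu, hu, hmul]

/-- The mean on `C(K)` built from an invariant mean on `WAP(S)`. -/
theorem exists_isMean (m : wap 𝕝 S →ₗ[𝕝] 𝕝) (hm : IsLIM m)
    (T : S → K → K) (hmul : ∀ s t x, T (s * t) x = T s (T t x))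
    (hcs : ∀ x, Continuous fun s => T s x)
    (hcl : ∀ σ ∈ closure (range T), Continuous σ) (y₀ : K) :
    ∃ Λ : C(K, ℝ) →ₗ[ℝ] ℝ, IsMean T y₀ Λ := by
  let u : C(S, K) := ⟨fun t => T t y₀, hcs y₀⟩
  have hJ : ∀ h, orbFun 𝕝 u h ∈ wap 𝕝 S := fun h => orbFun_mem_wap T hmul hcl y₀ u (fun _ => rfl) h
  let Λ : C(K, ℝ) →ₗ[ℝ] ℝ :=
    { toFun := fun h => RCLike.re (m ⟨orbFun 𝕝 u h, hJ h⟩)
      map_add' := by
        intro g h
        have : (⟨orbFun 𝕝 u (g + h), hJ _⟩ : wap 𝕝 S) = ⟨orbFun 𝕝 u g, hJ g⟩ + ⟨orbFun 𝕝 u h, hJ h⟩ :=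
          Subtype.ext (map_add _ _ _)
        rw [this, map_add, map_add]
      map_smul' := by
        intro c h
        have : (⟨orbFun 𝕝 u (c • h), hJ _⟩ : wap 𝕝 S) = (c : 𝕝) • ⟨orbFun 𝕝 u h, hJ h⟩ := by
          refine Subtype.ext ?_
          ext t
          change (((c • h) (u t) : ℝ) : 𝕝) = (c : 𝕝) * ((h (u t) : ℝ) : 𝕝)
          simp
        rw [this, map_smul, smul_eq_mul, RCLike.re_ofReal_mul]
        rfl }
  refine ⟨Λ, ?_, ?_, ?_, ?_⟩
  · intro h hh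
    have h1 := hm.nonneg ⟨orbFun 𝕝 u h, hJ h⟩ (by
      intro t
      change 0 ≤ ((h (u t) : ℝ) : 𝕝)
      exact RCLike.ofReal_nonneg.2 (hh _))
    exact (RCLike.nonneg_iff.1 h1).1
  · have h1 : (⟨orbFun 𝕝 u 1, hJ 1⟩ : wap 𝕝 S) = ⟨1, isWAP_one⟩ := by
      refine Subtype.ext ?_
      ext t
      change (((1 : C(K, ℝ)) (u t) : ℝ) : 𝕝) = 1
      simp
    change RCLike.re (m ⟨orbFun 𝕝 u 1, hJ 1⟩) = 1
    rw [h1, hm.one, RCLike.one_re]
  · intro s g h hgh
    change RCLike.re (m ⟨orbFun 𝕝 u g, hJ g⟩) = RCLike.re (m ⟨orbFun 𝕝 u h, hJ h⟩)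
    rw [← hm.inv s ⟨orbFun 𝕝 u h, hJ h⟩]
    congr 2
    refine Subtype.ext ?_
    ext t
    change ((g (T t y₀) : ℝ) : 𝕝) = ((h (T (s * t) y₀) : ℝ) : 𝕝)
    rw [hgh, hmul]
  · intro h hh
    have h1 : (⟨orbFun 𝕝 u h, hJ h⟩ : wap 𝕝 S) = 0 := by
      refine Subtype.ext ?_
      ext t
      change ((h (T t y₀) : ℝ) : 𝕝) = 0
      rw [hh t]
      simp
    change RCLike.re (m ⟨orbFun 𝕝 u h, hJ h⟩) = 0
    rw [h1, map_zero, map_zero]

end Build

end Pool.Agent.K7.H82
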